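import Pool.Agent.X225.Fct.Sparse

/-!
# Sign vectors for real matrices with bounded row and column `ℓ¹` norms

For matrices whose nonzero entries are at least `1 / R` in absolute value (for instance all
matrices with entries in `{-1, 0, 1}`) the bound `C √R` holds up to a factor `1 + log*` of the
smaller dimension; without a condition on the entries it holds up to a term with one logarithm.
-/

set_option autoImplicit false

namespace Pool.Agent.Results.MP_aa9902_co.IteratedLogFactor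

open Finset

/-- The `k`-th iterate of `x ↦ log (1 + x)`. -/
noncomputable def ilog (k : ℕ) (x : ℝ) : ℝ := (fun t : ℝ => Real.log (1 + t))^[k] x

/-- The iterated logarithm `log*`: the least `k` with `ilog k N ≤ 1`. -/
noncomputable def logStar (N : ℕ) : ℕ := sInf {k : ℕ | ilog k N ≤ 1}

/-- **Main result.** -/
theorem result (n m : ℕ) (R : ℝ) (hR : 1 ≤ R) (V : Matrix (Fin n) (Fin m) ℝ)
    (h1 : ∀ i j, |V i j| ≤ 1) (hrow : ∀ i, ∑ j, |V i j| ≤ R) (hcol : ∀ j, ∑ i, |V i j| ≤ R) :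
    ((∀ i j, V i j ≠ 0 → 1 / R ≤ |V i j|) →
      (∀ r : ℕ, ∃ y : Fin m → ℝ, (∀ j, y j = 1 ∨ y j = -1) ∧ ∀ i, |∑ j, V i j * y j| ≤
        100000000000 * Real.sqrt R *
          (1 + r + min ((ilog (r + 1) (min n m : ℕ)) ^ (1 / 4 : ℝ))
            (Real.sqrt (ilog (r + 1) (min n m : ℕ)) / Real.sqrt R * (1 + Real.log R) ^ 2))) ∧
      (∃ y : Fin m → ℝ, (∀ j, y j = 1 ∨ y j = -1) ∧ ∀ i, |∑ j, V i j * y j| ≤
        200000000000 * Real.sqrt R * (1 + logStar (min n m)))) ∧
    (∃ y : Fin m → ℝ, (∀ j, y j = 1 ∨ y j = -1) ∧ ∀ i, |∑ j, V i j * y j| ≤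
      100000000000 * (Real.sqrt R +
        Real.sqrt (Real.log (1 + ((min n m : ℕ) : ℝ))) * (1 + Real.log R) ^ 2)) := by
  refine ⟨fun hη => ?_, X225.Fct.general R hR V h1 hcol⟩
  have key : ∀ r : ℕ, ∃ y : Fin m → ℝ, (∀ j, y j = 1 ∨ y j = -1) ∧ ∀ i, |∑ j, V i j * y j| ≤
        100000000000 * Real.sqrt R *
          (1 + r + min ((ilog (r + 1) (min n m : ℕ)) ^ (1 / 4 : ℝ))
            (Real.sqrt (ilog (r + 1) (min n m : ℕ)) / Real.sqrt R * (1 + Real.log R) ^ 2)) :=
    fun r => X225.Fct.sparse R hR V h1 hrow hcol hη r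
  refine ⟨key, ?_⟩
  obtain ⟨y, hy, hb⟩ := key (logStar (min n m))
  refine ⟨y, hy, fun i => (hb i).trans ?_⟩
  have hmem : ilog (logStar (min n m)) (min n m : ℕ) ≤ 1 :=
    Nat.sInf_mem (X225.Fct.exists_small (min n m))
  have hnn : 0 ≤ ilog (logStar (min n m)) (min n m : ℕ) :=
    (X225.Fct.slog_iter_le _ (Nat.cast_nonneg _) _).1
  have hs : ilog (logStar (min n m) + 1) (min n m : ℕ) ≤ 1 := by
    unfold ilog at hmem hnn ⊢
    rw [Function.iterate_succ_apply']
    have := Real.log_le_sub_one_of_pos (show 0 < 1 +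
      (fun t : ℝ => Real.log (1 + t))^[logStar (min n m)] ((min n m : ℕ) : ℝ) by linarith)
    linarith
  have hs0 : 0 ≤ ilog (logStar (min n m) + 1) (min n m : ℕ) :=
    (X225.Fct.slog_iter_le _ (Nat.cast_nonneg _) _).1
  have h4 : (ilog (logStar (min n m) + 1) (min n m : ℕ)) ^ (1 / 4 : ℝ) ≤ 1 :=
    Real.rpow_le_one hs0 hs (by norm_num)
  have hR0 : 0 ≤ Real.sqrt R := Real.sqrt_nonneg R
  have hl0 : (0 : ℝ) ≤ logStar (min n m) := Nat.cast_nonneg _
  have h5 : (1 + (logStar (min n m) : ℝ) +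
      min ((ilog (logStar (min n m) + 1) (min n m : ℕ)) ^ (1 / 4 : ℝ))
        (Real.sqrt (ilog (logStar (min n m) + 1) (min n m : ℕ)) / Real.sqrt R *
          (1 + Real.log R) ^ 2)) ≤
      2 * (1 + logStar (min n m)) := by
    have := (min_le_left ((ilog (logStar (min n m) + 1) (min n m : ℕ)) ^ (1 / 4 : ℝ))
      (Real.sqrt (ilog (logStar (min n m) + 1) (min n m : ℕ)) / Real.sqrt R *
          (1 + Real.log R) ^ 2)).trans h4
    linarith
  have h6 := mul_le_mul_of_nonneg_left h5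
    (show 0 ≤ 100000000000 * Real.sqrt R by positivity)
  linarith

end Pool.Agent.Results.MP_aa9902_co.IteratedLogFactor
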